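import Mathlib
import Pool.Agent.H954R3.TreeLem
import Pool.Agent.H954R3.Core

namespace Pool.Agent.Results.MP_7da865_gt.NoRegularMap

open UpperHalfPlane

/-- A graph has bounded degree. -/
def BoundedDegree {V : Type*} (G : SimpleGraph V) : Prop :=
  ∃ d : ℕ, ∀ v, (G.neighborSet v).encard ≤ d

/-- Subexponential growth: for every `ε > 0` there is `C` with `|B(y,r)| ≤ C e^{ε r}` for all
vertices `y` and all `r`. -/
def SubexponentialGrowth {V : Type*} (G : SimpleGraph V) : Prop :=
  ∀ ε : ℝ, 0 < ε → ∃ C : ℝ, ∀ (y : V) (r : ℕ),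
    ({y' | G.dist y y' ≤ r}.ncard : ℝ) ≤ C * Real.exp (ε * r)

/-- The vertex set of `G` with the path metric is quasi-isometric to the hyperbolic plane. -/
def QuasiIsometricToH2 {V : Type*} (G : SimpleGraph V) : Prop :=
  ∃ (φ : V → ℍ) (L C : ℝ), 1 ≤ L ∧ 0 ≤ C ∧
    (∀ x y, L⁻¹ * G.dist x y - C ≤ dist (φ x) (φ y) ∧ dist (φ x) (φ y) ≤ L * G.dist x y + C) ∧
    ∀ z, ∃ x, dist (φ x) z ≤ C

/-- The metric `d((t,y),(t',y')) = d(t,t') + d(y,y')` of a Cartesian product of two graphs. -/
noncomputable def prodDist {W U : Type*} (T : SimpleGraph W) (Y : SimpleGraph U) (p q : W × U) : ℕ :=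
  T.dist p.1 q.1 + Y.dist p.2 q.2

/-- Regular maps: `d(f x, f x') ≤ κ d(x,x') + κ` and all point preimages have at most `κ`
elements. -/
def IsRegularMap {X Z : Type*} (dX : X → X → ℕ) (dZ : Z → Z → ℕ) (f : X → Z) : Prop :=
  ∃ κ : ℝ, 1 ≤ κ ∧ (∀ x x', (dZ (f x) (f x') : ℝ) ≤ κ * dX x x' + κ) ∧
    ∀ z, (f ⁻¹' {z}).Finite ∧ ((f ⁻¹' {z}).ncard : ℝ) ≤ κ

/-- The points `(i 2^{-t}, 2^{-t})` of the upper half plane. -/
noncomputable def pt (t i : ℕ) : ℍ :=
  ⟨⟨(i : ℝ) / 2 ^ t, 1 / 2 ^ t⟩, by positivity⟩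

lemma dist_le_log {z w : ℍ} (h : Real.cosh (dist z w) ≤ 3 / 2) : dist z w ≤ Real.log 3 := by
  rw [Real.le_log_iff_exp_le (by norm_num)]
  rw [Real.cosh_eq] at h
  have := Real.exp_pos (-dist z w)
  linarith

lemma pt_dist_sq (t i s j : ℕ) : dist ((pt t i : ℍ) : ℂ) (pt s j : ℍ) ^ 2
    = ((i : ℝ) / 2 ^ t - j / 2 ^ s) ^ 2 + (1 / 2 ^ t - 1 / 2 ^ s) ^ 2 := by
  rw [Complex.dist_eq, ← Complex.normSq_eq_norm_sq, Complex.normSq_apply]
  simp [pt, UpperHalfPlane.coe_mk]
  ring

lemma pt_im (t i : ℕ) : (pt t i).im = 1 / 2 ^ t := rfl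

lemma cosh_same (t i j : ℕ) : Real.cosh (dist (pt t i) (pt t j))
    = 1 + ((i : ℝ) - j) ^ 2 / 2 := by
  rw [UpperHalfPlane.cosh_dist, pt_dist_sq, pt_im, pt_im]
  have : (0 : ℝ) < 2 ^ t := by positivity
  field_simp
  ring

lemma hor (t i : ℕ) : dist (pt t i) (pt t (i + 1)) ≤ Real.log 3 := by
  apply dist_le_log
  rw [cosh_same]
  push_cast
  norm_num

lemma vert (t m : ℕ) : dist (pt t (m / 2)) (pt (t + 1) m) ≤ Real.log 3 := by
  apply dist_le_log
  rw [UpperHalfPlane.cosh_dist, pt_dist_sq, pt_im, pt_im]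
  have h2 : (0 : ℝ) < 2 ^ t := by positivity
  have h3 : (m : ℝ) = 2 * ((m / 2 : ℕ) : ℝ) + ((m % 2 : ℕ) : ℝ) := by
    exact_mod_cast (Nat.div_add_mod m 2).symm
  have h4 : ((m % 2 : ℕ) : ℝ) ^ 2 ≤ 1 := by
    have : m % 2 ≤ 1 := by omega
    have h5 : ((m % 2 : ℕ) : ℝ) ≤ 1 := by exact_mod_cast this
    have h6 : (0 : ℝ) ≤ ((m % 2 : ℕ) : ℝ) := by positivity
    nlinarith
  have h7 : 1 + ((((m / 2 : ℕ) : ℝ) / 2 ^ t - m / 2 ^ (t + 1)) ^ 2
      + (1 / 2 ^ t - 1 / 2 ^ (t + 1)) ^ 2) / (2 * (1 / 2 ^ t) * (1 / 2 ^ (t + 1)))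
      = 1 + (((m % 2 : ℕ) : ℝ) ^ 2 + 1) / 4 := by
    rw [h3, pow_succ]
    field_simp
    ring
  rw [h7]
  linarith

lemma card_le_of_diff (S : Finset ℕ) (B : ℕ) (h : ∀ a ∈ S, ∀ b ∈ S, a ≤ b → b - a ≤ B) :
    S.card ≤ B + 1 := by
  rcases S.eq_empty_or_nonempty with rfl | hS
  · simp
  · have hsub : S ⊆ Finset.Icc (S.min' hS) (S.min' hS + B) := by
      intro b hb
      rw [Finset.mem_Icc]
      have h1 := S.min'_le b hb
      have h2 := h _ (S.min'_mem hS) b hb h1
      omega
    have := Finset.card_le_card hsub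
    rw [Nat.card_Icc] at this
    omega

/-- **There is no regular map from the hyperbolic plane to `T × Y`** for any tree `T` of bounded
degree (in particular for `T = T_3`) and any bounded-degree graph `Y` of subexponential growth.
Here the hyperbolic plane is represented by an arbitrary connected bounded-degree graph `X`
quasi-isometric to it. -/
theorem result {V W U : Type*} (X : SimpleGraph V) (T : SimpleGraph W) (Y : SimpleGraph U)
    (_hX : X.Connected) (_hXdeg : BoundedDegree X) (hXH : QuasiIsometricToH2 X)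
    (hT : T.IsTree) (hTdeg : BoundedDegree T)
    (hY : Y.Connected) (hYdeg : BoundedDegree Y) (hYg : SubexponentialGrowth Y) :
    ¬ ∃ f : V → W × U, IsRegularMap X.dist (prodDist T Y) f := by
  classical
  rintro ⟨f, κ, hκ, hlip, hfin⟩
  obtain ⟨φ, L, C, hL, hC, hφ, hsurj⟩ := hXH
  obtain ⟨d, hd⟩ := hTdeg
  obtain ⟨e, he⟩ := hYdeg
  choose x hx using fun t i => hsurj (pt t i)
  have hLpos : 0 < L := by linarith
  have hlog : 0 ≤ Real.log 3 := Real.log_nonneg (by norm_num)
  -- distances of images of neighbours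
  have hX1 : ∀ t i s j, dist (pt t i) (pt s j) ≤ Real.log 3 →
      (X.dist (x t i) (x s j) : ℝ) ≤ L * (Real.log 3 + 3 * C) := by
    intro t i s j h
    have h1 := (hφ (x t i) (x s j)).1
    have h2 : dist (φ (x t i)) (φ (x s j)) ≤ C + Real.log 3 + C := by
      calc _ ≤ dist (φ (x t i)) (pt t i) + dist (pt t i) (pt s j) + dist (pt s j) (φ (x s j)) :=
            dist_triangle4 _ _ _ _
        _ ≤ _ := by
            have := hx s j
            rw [dist_comm] at this
            exact add_le_add (add_le_add (hx t i) h) this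
    have h3 : L⁻¹ * X.dist (x t i) (x s j) ≤ Real.log 3 + 3 * C := by linarith
    rwa [inv_mul_le_iff₀ hLpos] at h3
  set M : ℝ := κ * (L * (Real.log 3 + 3 * C)) + κ with hM
  set lam := ⌈M⌉₊ with hlam
  have hF : ∀ t i s j, dist (pt t i) (pt s j) ≤ Real.log 3 →
      prodDist T Y (f (x t i)) (f (x s j)) ≤ lam := by
    intro t i s j h
    have h1 := hlip (x t i) (x s j)
    have h2 : κ * (X.dist (x t i) (x s j) : ℝ) ≤ κ * (L * (Real.log 3 + 3 * C)) :=
      mul_le_mul_of_nonneg_left (hX1 t i s j h) (by linarith)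
    have h3 : (prodDist T Y (f (x t i)) (f (x s j)) : ℝ) ≤ M := by linarith
    exact_mod_cast h3.trans (Nat.le_ceil M)
  -- multiplicities
  obtain ⟨B, hB⟩ := exists_nat_ge (2 * Real.cosh (2 * C))
  have hB1 : ∀ t i j, x t i = x t j → i ≤ j → j - i ≤ B := by
    intro t i j hij hle
    have h1 : dist (pt t i) (pt t j) ≤ 2 * C := by
      calc _ ≤ dist (pt t i) (φ (x t i)) + dist (φ (x t i)) (pt t j) := dist_triangle _ _ _
        _ ≤ C + C := by
            have h2 := hx t i
            rw [dist_comm] at h2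
            have h3 := hx t j
            rw [← hij] at h3
            exact add_le_add h2 h3
        _ = 2 * C := by ring
    have h2 : Real.cosh (dist (pt t i) (pt t j)) ≤ Real.cosh (2 * C) := by
      rw [Real.cosh_le_cosh, abs_of_nonneg dist_nonneg, abs_of_nonneg (by positivity)]
      exact h1
    rw [cosh_same] at h2
    have h3 : ((j - i : ℕ) : ℝ) ^ 2 ≤ B := by
      rw [Nat.cast_sub hle]
      nlinarith
    have h4 : (j - i) ^ 2 ≤ B := by exact_mod_cast h3
    nlinarith [Nat.zero_le (j - i)]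
  set K : ℕ := (B + 1) * ⌊κ⌋₊ with hK
  have hmult : ∀ (S : Finset ℕ) t p, (∀ m ∈ S, f (x t m) = p) → S.card ≤ K := by
    intro S t p hS
    have h1 : S.card ≤ (B + 1) * (hfin p).1.toFinset.card := by
      apply Finset.card_le_mul_card_image_of_maps_to (f := fun m => x t m)
      · intro m hm
        rw [Set.Finite.mem_toFinset]
        exact hS m hm
      · intro b _
        apply card_le_of_diff
        intro i hi j hj hij
        rw [Finset.mem_filter] at hi hj
        exact hB1 t i j (hi.2.trans hj.2.symm) hij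
    refine h1.trans (Nat.mul_le_mul_left _ ?_)
    apply Nat.le_floor
    rw [← Set.ncard_eq_toFinset_card _ (hfin p).1]
    exact (hfin p).2
  have hc := hT.connected
  refine Pool.Agent.H954R3.Core.core (T := T) (g := fun t i => (f (x t i)).1) (lam := lam) hT d hd
    (fun t m => ?_) (fun t i => ?_) ?_
  · exact (Nat.le_add_right _ _).trans (hF t (m / 2) (t + 1) m (vert t m))
  · exact (Nat.le_add_right _ _).trans (hF t i t (i + 1) (hor t i))
  · intro a ha
    have hla : 0 < Real.log a := Real.log_pos ha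
    obtain ⟨C', hC'⟩ := hYg (Real.log a / (lam + 1)) (by positivity)
    have hC'0 : 0 ≤ C' := by
      have h1 := hC' (f (x 0 0)).2 0
      simp only [Nat.cast_zero, mul_zero, Real.exp_zero, mul_one] at h1
      exact le_trans (by positivity) h1
    refine ⟨K * C', fun t i l u => ?_⟩
    have hYpath := Pool.Agent.H954R3.Core.path_dist (T := Y) (g := fun t i => (f (x t i)).2)
      (lam := lam) hY (fun t m => (Nat.le_add_left _ _).trans (hF t (m / 2) (t + 1) m (vert t m))) l
    obtain ⟨s, _, hs⟩ := Pool.Agent.H954R3.TL.ball_cover hY e he (f (x t i)).2 (lam * l)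
    have hballfin : {y' | Y.dist (f (x t i)).2 y' ≤ lam * l}.Finite :=
      s.finite_toSet.subset (fun y' hy' => hs y' hy')
    have h1 : ((Pool.Agent.H954R3.Core.desc l i).filter (fun m => (f (x (t + l) m)).1 = u)).card
        ≤ K * hballfin.toFinset.card := by
      apply Finset.card_le_mul_card_image_of_maps_to (f := fun m => (f (x (t + l) m)).2)
      · intro m hm
        rw [Finset.mem_filter, Pool.Agent.H954R3.Core.mem_desc] at hm
        rw [Set.Finite.mem_toFinset]
        have h2 := hYpath t m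
        rw [hm.1] at h2
        exact h2
      · intro y _
        apply hmult _ (t + l) (u, y)
        intro m hm
        rw [Finset.mem_filter, Finset.mem_filter] at hm
        exact Prod.ext hm.1.2 hm.2
    have h2 : Nat.card {m // m ∈ Pool.Agent.H954R3.Core.desc l i ∧ (f (x (t + l) m)).1 = u}
        = ((Pool.Agent.H954R3.Core.desc l i).filter (fun m => (f (x (t + l) m)).1 = u)).card := by
      rw [← Nat.card_eq_finsetCard]
      apply Nat.card_congr
      exact Equiv.subtypeEquivRight (fun m => by simp)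
    show (Nat.card {m // m ∈ Pool.Agent.H954R3.Core.desc l i ∧ (f (x (t + l) m)).1 = u} : ℝ) ≤ _
    rw [h2]
    have h3 := hC' (f (x t i)).2 (lam * l)
    rw [Set.ncard_eq_toFinset_card _ hballfin] at h3
    have h4 : Real.exp (Real.log a / (lam + 1) * ((lam * l : ℕ) : ℝ)) ≤ a ^ l := by
      rw [← Real.exp_log (show (0 : ℝ) < a by linarith), ← Real.exp_nat_mul, Real.log_exp]
      apply Real.exp_le_exp.mpr
      push_cast
      rw [div_mul_eq_mul_div, div_le_iff₀ (by positivity)]
      have : (0 : ℝ) ≤ Real.log a * l := by positivity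
      nlinarith
    calc (((Pool.Agent.H954R3.Core.desc l i).filter (fun m => (f (x (t + l) m)).1 = u)).card : ℝ)
        ≤ K * hballfin.toFinset.card := by exact_mod_cast h1
      _ ≤ K * (C' * a ^ l) := by
          apply mul_le_mul_of_nonneg_left _ (by positivity)
          exact h3.trans (mul_le_mul_of_nonneg_left h4 hC'0)
      _ = K * C' * a ^ l := by ring

end Pool.Agent.Results.MP_7da865_gt.NoRegularMap
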